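import Pool.Agent.Lib.MP_14dda7_al.Main

namespace Pool.Agent.Results.MP_14dda7_al.HeldNotSync

open Pool.Agent.Lib.MP_14dda7_al

/-- A simple group of the order of the Held group, irreducible in dimension 101 over the field
with two elements, whose affine groups on the module and on its dual are not synchronizing. -/
theorem result : ∃ H : Subgroup (GL (Fin 101) (ZMod 2)),
    IsSimpleGroup H ∧ Nat.card H = 4030387200 ∧ Irred H ∧ Irred (dual H) ∧
      ¬ Synchronizing (affine H) ∧ ¬ Synchronizing (affine (dual H)) :=
  ⟨HH, simple_H, card_H, irr.1, irr.2, not_sync_H, not_sync_dual⟩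

end Pool.Agent.Results.MP_14dda7_al.HeldNotSync
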